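import Pool.Agent.R893.TQ.Semi

/-!
# Rational `(1,1)`-classes on torus quotients
-/

set_option autoImplicit false

namespace Pool.Agent.R893.TQ

open Pool.Agent.W594.SYZ2 Pool.Agent.W594.SYZ2.TQ Pool.Agent.TH735.AQ
open Pool.Agent.Y167 (exists_bpf)

/-- `H` is a class in `H²(X, ℚ)` of Hodge type `(1,1)`, where `X = V / Γ` is the quotient of the torus
`V / Λ` by the finite group `G = Γ / Λ`: as `H²(X, ℚ) = H²(V / Λ, ℚ)^G` is the space of the invariant
alternating forms on the lattice `Λ = latt Γ` with rational values, such a class is a hermitian form `H`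
on `V` which is invariant under the linear parts of `Γ` and whose imaginary part has rational values,
with a common denominator `k`, on the lattice. -/
structure IsRatClass {V : Type*} [NormedAddCommGroup V] [NormedSpace ℂ V]
    (Γ : Subgroup (V ≃ᵃ[ℂ] V)) (H : V → V → ℂ) : Prop where
  herm : IsHermitian H
  inv : ∀ γ ∈ Γ, ∀ v w, H (γ.linear v) (γ.linear w) = H v w
  rat : ∃ k : ℕ, 0 < k ∧ ∀ b ∈ latt Γ, ∀ c ∈ latt Γ, ∃ n : ℤ, (k : ℝ) * (H b c).im = n

/-- The class `H` on `X = V / Γ` is ample: a positive multiple of `H` is the first Chern form of a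
holomorphic line bundle on `X` which is positive and generated by its global sections. -/
def IsAmpleClass {V : Type*} [NormedAddCommGroup V] [NormedSpace ℂ V]
    (Γ : Subgroup (V ≃ᵃ[ℂ] V)) (H : V → V → ℂ) : Prop :=
  IsRatClass Γ H ∧ IsPositiveForm H ∧ ∃ m : ℕ, 1 ≤ m ∧ ∃ A : LineBundle Γ,
    IsChernForm A (fun v w => (m : ℂ) * H v w) ∧ BaseFree A

/-- The fibration `g : X = V / Γ → B = W / Δ` given by `π` and the ample class `HB` on `B` are a
solution of the problem for the class `H`: `H = g^* HB`. -/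
structure Solves {V W : Type*} [NormedAddCommGroup V] [NormedSpace ℂ V] [NormedAddCommGroup W]
    [NormedSpace ℂ W] (Γ : Subgroup (V ≃ᵃ[ℂ] V)) (H : V → V → ℂ) (Δ : Subgroup (W ≃ᵃ[ℂ] W))
    (π : V →ₗ[ℂ] W) (HB : W → W → ℂ) : Prop where
  fib : IsFibration Γ Δ π
  ample : IsAmpleClass Δ HB
  pull : ∀ v w, H v w = HB (π v) (π w)

/-- The fibrations given by `π : V → W` and `π' : V → W'`, with classes `HB`, `HB'` on the bases, are
isomorphic: there is a linear isomorphism `φ : W → W'` with `φ ∘ π = π'` which carries the group `Δ` to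
`Δ'` and the class `HB` to `HB'`. -/
def Isomorphic {V W W' : Type*} [NormedAddCommGroup V] [NormedSpace ℂ V] [NormedAddCommGroup W]
    [NormedSpace ℂ W] [NormedAddCommGroup W'] [NormedSpace ℂ W'] (Δ : Subgroup (W ≃ᵃ[ℂ] W))
    (Δ' : Subgroup (W' ≃ᵃ[ℂ] W')) (π : V →ₗ[ℂ] W) (π' : V →ₗ[ℂ] W') (HB : W → W → ℂ)
    (HB' : W' → W' → ℂ) : Prop :=
  ∃ φ : W ≃ₗ[ℂ] W', (∀ v, φ (π v) = π' v) ∧
    (∀ δ ∈ Δ, ∃ δ' ∈ Δ', ∀ w, φ (δ w) = δ' (φ w)) ∧
    (∀ δ' ∈ Δ', ∃ δ ∈ Δ, ∀ w, φ (δ w) = δ' (φ w)) ∧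
    ∀ v w, HB v w = HB' (φ v) (φ w)

/-- A solution of the problem for the class `H` on `X = V / Γ`: a fibration `g : X → B = ℂ^n / Δ` and an
ample class on `B` whose pullback is `H`. -/
structure Solution {V : Type*} [NormedAddCommGroup V] [NormedSpace ℂ V]
    (Γ : Subgroup (V ≃ᵃ[ℂ] V)) (H : V → V → ℂ) where
  n : ℕ
  Δ : Subgroup ((Fin n → ℂ) ≃ᵃ[ℂ] (Fin n → ℂ))
  π : V →ₗ[ℂ] (Fin n → ℂ)
  HB : (Fin n → ℂ) → (Fin n → ℂ) → ℂ
  solves : Solves Γ H Δ π HB

variable {V : Type*} [NormedAddCommGroup V] [NormedSpace ℂ V]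
  {W : Type*} [NormedAddCommGroup W] [NormedSpace ℂ W]
  {W' : Type*} [NormedAddCommGroup W'] [NormedSpace ℂ W']
  {Γ : Subgroup (V ≃ᵃ[ℂ] V)} {L : LineBundle Γ} {H : V → V → ℂ} {HB : W → W → ℂ}
  {HB' : W' → W' → ℂ}
  {Δ : Subgroup (W ≃ᵃ[ℂ] W)} {Δ' : Subgroup (W' ≃ᵃ[ℂ] W')} {π : V →ₗ[ℂ] W} {π' : V →ₗ[ℂ] W'}

/-- A rational class is ample if and only if it is positive. -/
theorem ample_of_pos [FiniteDimensional ℂ V] (hΓ : IsTorusQuotient Γ) (hr : IsRatClass Γ H)
    (hp : IsPositiveForm H) : IsAmpleClass Γ H := by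
  obtain ⟨k, hk, hint⟩ := hr.rat
  have hn : IsNefForm H := by
    intro v
    by_cases h : v = 0
    · rw [h, h_zero_left hr.herm]
      simp
    · exact (hp v h).le
  obtain ⟨m, hm, A, hA, hs⟩ := exists_bpf hΓ hr.herm hn hr.inv hk hint
  exact ⟨hr, hp, m, hm, A, hA, hs⟩

/-- The kernel of the class is the kernel of the linear map. -/
theorem Solves.ker (S : Solves Γ H Δ π HB) (v : V) : π v = 0 ↔ ∀ w, H v w = 0 := by
  have hH := S.ample.1.herm
  constructor
  · intro h w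
    rw [S.pull, h, h_zero_left hH]
  · intro h
    by_contra hne
    have h1 := S.ample.2.1 _ hne
    rw [← S.pull, h v] at h1
    simp at h1

/-- The class is nef. -/
theorem Solves.nef (S : Solves Γ H Δ π HB) : IsNefForm H := by
  intro v
  rw [S.pull]
  by_cases h : π v = 0
  · rw [h, h_zero_left S.ample.1.herm]
    simp
  · exact (S.ample.2.1 _ h).le

/-- Uniqueness of the fibration. -/
theorem Solves.unique (S : Solves Γ H Δ π HB) (S' : Solves Γ H Δ' π' HB') :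
    Isomorphic Δ Δ' π π' HB HB' := by
  have hker : LinearMap.ker π = LinearMap.ker π' := by
    ext v
    rw [LinearMap.mem_ker, LinearMap.mem_ker, S.ker, S'.ker]
  let e1 : (V ⧸ LinearMap.ker π) ≃ₗ[ℂ] W := π.quotKerEquivOfSurjective S.fib.surj
  let e2 : (V ⧸ LinearMap.ker π') ≃ₗ[ℂ] W' := π'.quotKerEquivOfSurjective S'.fib.surj
  let e3 : (V ⧸ LinearMap.ker π) ≃ₗ[ℂ] (V ⧸ LinearMap.ker π') :=
    Submodule.quotEquivOfEq _ _ hker
  let φ : W ≃ₗ[ℂ] W' := e1.symm.trans (e3.trans e2)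
  have hφ : ∀ v, φ (π v) = π' v := by
    intro v
    have h1 : e1.symm (π v) = Submodule.Quotient.mk v := by
      rw [LinearEquiv.symm_apply_eq]
      rfl
    change e2 (e3 (e1.symm (π v))) = π' v
    rw [h1]
    rfl
  refine ⟨φ, hφ, ?_, ?_, ?_⟩
  · intro δ hδ
    obtain ⟨γ, hγ, h1⟩ := S.fib.onto δ hδ
    obtain ⟨δ', hδ', h2⟩ := S'.fib.maps γ hγ
    refine ⟨δ', hδ', fun w => ?_⟩
    obtain ⟨v, rfl⟩ := S.fib.surj w
    rw [h1, hφ, hφ, h2]
  · intro δ' hδ'
    obtain ⟨γ, hγ, h2⟩ := S'.fib.onto δ' hδ'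
    obtain ⟨δ, hδ, h1⟩ := S.fib.maps γ hγ
    refine ⟨δ, hδ, fun w => ?_⟩
    obtain ⟨v, rfl⟩ := S.fib.surj w
    rw [h1, hφ, hφ, h2]
  · intro v w
    obtain ⟨v, rfl⟩ := S.fib.surj v
    obtain ⟨w, rfl⟩ := S.fib.surj w
    rw [← S.pull, hφ, hφ, ← S'.pull]

/-- Lattice vectors of the base: a multiple comes from a lattice vector. -/
theorem latt_base (hΓ : IsTorusQuotient Γ) (hfib : IsFibration Γ Δ π) (w : W)
    (hw : w ∈ latt Δ) : ∃ b ∈ latt Γ, π b = Nat.card (Lin Γ) • w := by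
  have := finite_Lin hΓ
  obtain ⟨γ, hγ, h⟩ := hfib.onto _ hw
  let g : Γ := ⟨γ, hγ⟩
  have hp : ∀ (n : ℕ) (v : V), π (((g ^ n : Γ) : V ≃ᵃ[ℂ] V) v) = n • w + π v := by
    intro n
    induction n with
    | zero => intro v; rw [pow_zero, zero_smul, zero_add]; rfl
    | succ n ih =>
      intro v
      have h1 : ((g ^ (n + 1) : Γ) : V ≃ᵃ[ℂ] V) v = ((g ^ n : Γ) : V ≃ᵃ[ℂ] V) (γ v) := by
        rw [pow_succ]
        rfl
      rw [h1, ih, ← h v]
      change n • w + (w + π v) = (n + 1) • w + π v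
      rw [succ_nsmul, add_assoc]
  set M := Nat.card (Lin Γ) with hM
  have hlin : ∀ w, ((g ^ M : Γ) : V ≃ᵃ[ℂ] V).linear w = w := by
    let g' : Lin Γ := ⟨γ.linear, γ, hγ, rfl⟩
    have hg : ∀ n : ℕ, ((g' ^ n : Lin Γ) : V ≃ₗ[ℂ] V) = ((g ^ n : Γ) : V ≃ᵃ[ℂ] V).linear := by
      intro n
      have e1 : ((g' ^ n : Lin Γ) : V ≃ₗ[ℂ] V) = (g' : V ≃ₗ[ℂ] V) ^ n := rfl
      have e2 : ((g ^ n : Γ) : V ≃ᵃ[ℂ] V) = γ ^ n := rfl
      have e3 : (γ ^ n).linear = AffineEquiv.linearHom (γ ^ n) := rfl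
      rw [e1, e2, e3, map_pow]
      rfl
    intro w
    rw [← hg M, hM, pow_card_eq_one']
    rfl
  obtain ⟨hb, -⟩ := eq_tr (g ^ M) hlin
  refine ⟨_, hb, ?_⟩
  rw [hp, map_zero, add_zero]

/-- Existence of the fibration. -/
theorem exists_solution [FiniteDimensional ℂ V] (hΓ : IsTorusQuotient Γ) (hr : IsRatClass Γ H)
    (hn : IsNefForm H) :
    ∃ (n : ℕ) (Δ : Subgroup ((Fin n → ℂ) ≃ᵃ[ℂ] (Fin n → ℂ))) (π : V →ₗ[ℂ] (Fin n → ℂ))
      (HB : (Fin n → ℂ) → (Fin n → ℂ) → ℂ), Solves Γ H Δ π HB := by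
  obtain ⟨k, hk, hint⟩ := hr.rat
  obtain ⟨m, hm, A, hA, -⟩ := exists_bpf hΓ hr.herm hn hr.inv hk hint
  have hm0 : (m : ℂ) ≠ 0 := by exact_mod_cast hm.ne'
  have hn' : IsNefForm (fun v w => (m : ℂ) * H v w) := by
    intro v
    have : ((m : ℕ) : ℂ) = ((m : ℝ) : ℂ) := by push_cast; rfl
    rw [this, Complex.re_ofReal_mul]
    exact mul_nonneg (Nat.cast_nonneg _) (hn v)
  obtain ⟨-, -, -, -, n, Δ, π, hker, hfib, -⟩ := numerical hΓ hA hn'
  have hker' : ∀ v, π v = 0 ↔ v ∈ ker hr.herm := by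
    intro v
    rw [hker, mem_ker]
    refine forall_congr' fun w => ?_
    rw [mul_eq_zero]
    exact ⟨fun h => h.resolve_left hm0, Or.inr⟩
  have hsec := sec_spec hfib.surj
  have hred : ∀ v w, H (sec π (π v)) (sec π (π w)) = H v w := by
    intro v w
    have h1 : sec π (π v) - v ∈ ker hr.herm := by
      rw [← hker', map_sub, hsec, sub_self]
    have h2 : sec π (π w) - w ∈ ker hr.herm := by
      rw [← hker', map_sub, hsec, sub_self]
    have e1 : sec π (π v) = v + (sec π (π v) - v) := by abel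
    have e2 : sec π (π w) = w + (sec π (π w) - w) := by abel
    rw [e1, e2, hr.herm.add_left, h1 _, add_zero, h_add_right hr.herm,
      h_ker_right hr.herm h2, add_zero]
  let HB : (Fin n → ℂ) → (Fin n → ℂ) → ℂ := fun x y => H (sec π x) (sec π y)
  have hHB : ∀ v w, HB (π v) (π w) = H v w := hred
  have hcast : ∀ (N : ℕ) (x y : V), H (N • x) (N • y) = (N : ℂ) ^ 2 * H x y := by
    intro N x y
    rw [← Nat.cast_smul_eq_nsmul ℂ N x, ← Nat.cast_smul_eq_nsmul ℂ N y, hr.herm.smul_left,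
      h_smul_right hr.herm, Complex.conj_natCast]
    ring
  have hrat : IsRatClass Δ HB := by
    refine ⟨⟨?_, ?_, ?_⟩, ?_, ?_⟩
    · intro u v w
      simp only [HB]
      rw [map_add, hr.herm.add_left]
    · intro a v w
      simp only [HB]
      rw [map_smul, hr.herm.smul_left]
    · intro v w
      exact hr.herm.symm _ _
    · intro δ hδ x y
      obtain ⟨γ, hγ, h⟩ := hfib.onto δ hδ
      obtain ⟨v, rfl⟩ := hfib.surj x
      obtain ⟨w, rfl⟩ := hfib.surj y
      have h0 := h 0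
      rw [map_zero] at h0
      have h1 : ∀ v, δ.linear (π v) = π (γ.linear v) := by
        intro v
        have h2 := h v
        rw [act δ, act γ v, map_add, h0] at h2
        exact add_right_cancel h2
      rw [h1, h1, hHB, hHB, hr.inv γ hγ]
    · set N := Nat.card (Lin Γ) with hN
      have hNpos : 0 < N := Pool.Agent.Y167.card_pos hΓ
      refine ⟨k * N ^ 2, by positivity, ?_⟩
      intro x hx y hy
      obtain ⟨b, hb, hbx⟩ := latt_base hΓ hfib x hx
      obtain ⟨c, hc, hcy⟩ := latt_base hΓ hfib y hy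
      obtain ⟨z, hz⟩ := hint b hb c hc
      refine ⟨z, ?_⟩
      rw [← hz, ← hHB b c, hbx, hcy]
      change _ = (k : ℝ) * (H (sec π (N • x)) (sec π (N • y))).im
      rw [map_nsmul, map_nsmul, hcast]
      have e1 : ((N : ℂ) ^ 2 * H (sec π x) (sec π y)).im = (N : ℝ) ^ 2 * (H (sec π x) (sec π y)).im := by
        have : ((N : ℂ) ^ 2) = (((N : ℝ) ^ 2 : ℝ) : ℂ) := by push_cast; rfl
        rw [this, Complex.im_ofReal_mul]
      rw [e1]
      push_cast
      ring
  have hpos : IsPositiveForm HB := by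
    intro w hw
    apply lt_of_le_of_ne (hn _)
    intro h
    apply hw
    rw [← hsec w, hker']
    exact fun u => h_isotropic hr.herm hn _ h.symm u
  exact ⟨n, Δ, π, HB, hfib, ample_of_pos hfib.base hrat hpos, fun v w => (hHB v w).symm⟩

end Pool.Agent.R893.TQ

namespace Pool.Agent.R893.TQ

open Pool.Agent.W594.SYZ2 Pool.Agent.W594.SYZ2.TQ Pool.Agent.TH735.AQ

variable {V : Type*} [NormedAddCommGroup V] [NormedSpace ℂ V]
  {Γ : Subgroup (V ≃ᵃ[ℂ] V)} {H A : V → V → ℂ}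

/-- The class `H + (1 / k) A`. -/
noncomputable def shift (H A : V → V → ℂ) (k : ℕ) (v w : V) : ℂ := H v w + (k : ℂ)⁻¹ * A v w

theorem shift_re (k : ℕ) (v w : V) :
    (shift H A k v w).re = (H v w).re + (k : ℝ)⁻¹ * (A v w).re := by
  have : ((k : ℂ)⁻¹) = (((k : ℝ)⁻¹ : ℝ) : ℂ) := by push_cast; rfl
  rw [shift, this, Complex.add_re, Complex.re_ofReal_mul]

theorem shift_im (k : ℕ) (v w : V) :
    (shift H A k v w).im = (H v w).im + (k : ℝ)⁻¹ * (A v w).im := by
  have : ((k : ℂ)⁻¹) = (((k : ℝ)⁻¹ : ℝ) : ℂ) := by push_cast; rfl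
  rw [shift, this, Complex.add_im, Complex.im_ofReal_mul]

theorem shift_rat (hr : IsRatClass Γ H) (ha : IsRatClass Γ A) {k : ℕ} (hk : 1 ≤ k) :
    IsRatClass Γ (shift H A k) := by
  have hk0 : (k : ℝ) ≠ 0 := by
    have : k ≠ 0 := by omega
    exact_mod_cast this
  refine ⟨⟨?_, ?_, ?_⟩, ?_, ?_⟩
  · intro u v w
    simp only [shift]
    rw [hr.herm.add_left, ha.herm.add_left]
    ring
  · intro a v w
    simp only [shift]
    rw [hr.herm.smul_left, ha.herm.smul_left]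
    ring
  · intro v w
    simp only [shift]
    rw [map_add, map_mul, map_inv₀, Complex.conj_natCast, ← hr.herm.symm, ← ha.herm.symm]
  · intro γ hγ v w
    simp only [shift]
    rw [hr.inv γ hγ, ha.inv γ hγ]
  · obtain ⟨p, hp, h1⟩ := hr.rat
    obtain ⟨q, hq, h2⟩ := ha.rat
    refine ⟨p * q * k, by positivity, fun b hb c hc => ?_⟩
    obtain ⟨x, hx⟩ := h1 b hb c hc
    obtain ⟨y, hy⟩ := h2 b hb c hc
    refine ⟨q * k * x + p * y, ?_⟩
    rw [shift_im]
    push_cast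
    rw [← hx, ← hy]
    field_simp

/-- Kleiman's description of nef classes: in the presence of an ample class `A`, the class `H` is nef
if and only if `H + (1 / k) A` is ample for all `k ≥ 1`. -/
theorem nef_iff [FiniteDimensional ℂ V] (hΓ : IsTorusQuotient Γ) (hr : IsRatClass Γ H)
    (ha : IsAmpleClass Γ A) :
    IsNefForm H ↔ ∀ k : ℕ, 1 ≤ k → IsAmpleClass Γ (shift H A k) := by
  constructor
  · intro hn k hk
    refine ample_of_pos hΓ (shift_rat hr ha.1 hk) fun v hv => ?_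
    rw [shift_re]
    have h1 := ha.2.1 v hv
    have h2 := hn v
    have h3 : (0 : ℝ) < (k : ℝ)⁻¹ := by
      have : (0 : ℝ) < k := by exact_mod_cast hk
      positivity
    have h4 := mul_pos h3 h1
    linarith
  · intro h v
    by_cases hv : v = 0
    · rw [hv, h_zero_left hr.herm]
      simp
    · by_contra hneg
      push Not at hneg
      have h1 := ha.2.1 v hv
      obtain ⟨t, ht⟩ := exists_nat_gt ((A v v).re / (-(H v v).re))
      have h2 := (h (t + 1) (by omega)).2.1 v hv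
      rw [shift_re] at h2
      rw [div_lt_iff₀ (by linarith)] at ht
      have ht1 : (0 : ℝ) < ((t + 1 : ℕ) : ℝ) := by positivity
      have h3 : (((t + 1 : ℕ) : ℝ))⁻¹ * (A v v).re < -(H v v).re := by
        rw [inv_mul_lt_iff₀ ht1]
        push_cast
        nlinarith
      linarith

end Pool.Agent.R893.TQ
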