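import Pool.Agent.Y167.Bpf
import Pool.Agent.TH735.AQ.Crit
import Pool.Agent.TH128.SYZ.PsefConv

/-!
# Powers of nef line bundles on torus quotients are generated by global sections
-/

set_option autoImplicit false

namespace Pool.Agent.R893.TQ

open Pool.Agent.W594.SYZ2 Pool.Agent.W594.SYZ2.TQ Pool.Agent.TH735.AQ Pool.Agent.TH128.SYZ
open Pool.Agent.Y167 (exists_bpf)

variable {V : Type*} [NormedAddCommGroup V] [NormedSpace ℂ V]
  {Γ : Subgroup (V ≃ᵃ[ℂ] V)} {L M : LineBundle Γ} {H G : V → V → ℂ}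

/-- The linear system `|M|` is base point free: for every point of `X = V / Γ` there is a global
holomorphic section of `M` which does not vanish there. -/
def BaseFree (M : LineBundle Γ) : Prop := ∀ v, ∃ s, M.IsSection s ∧ s v ≠ 0

/-- The dual line bundle. -/
noncomputable def dual (L : LineBundle Γ) : LineBundle Γ where
  e := fun γ v => (L.e γ v)⁻¹
  holo := fun γ => (L.holo γ).inv (L.ne_zero γ)
  ne_zero := fun γ v => inv_ne_zero (L.ne_zero γ v)
  mul := fun γ δ v => by rw [L.mul, mul_inv]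
  stab := fun γ v h => by rw [L.stab γ v h, inv_one]

theorem chern_pow (hc : IsChernForm L H) (k : ℕ) :
    IsChernForm (L.pow k) (fun v w => (k : ℂ) * H v w) := by
  obtain ⟨hH, F, hF, hFe⟩ := hc
  have hMr : ∀ z : ℂ, ((k : ℂ) * z).re = (k : ℝ) * z.re := fun z => by
    have : ((k : ℕ) : ℂ) = ((k : ℝ) : ℂ) := by push_cast; rfl
    rw [this, Complex.re_ofReal_mul]
  refine ⟨⟨fun u v w => ?_, fun a v w => ?_, fun v w => ?_⟩, fun v => (k : ℂ) * F v,
    hF.const_mul _, fun γ v => ?_⟩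
  · rw [hH.add_left, mul_add]
  · rw [hH.smul_left]
    ring
  · rw [map_mul, ← hH.symm, Complex.conj_natCast]
  · have h1 : ‖(L.pow k).e γ v‖ ^ 2 = (‖L.e γ v‖ ^ 2) ^ k := by
      change ‖L.e γ v ^ k‖ ^ 2 = _
      rw [norm_pow, ← pow_mul, ← pow_mul, mul_comm]
    rw [h1, hFe, ← Real.exp_nat_mul]
    simp only [hMr]
    congr 1
    ring

theorem chern_dual (hc : IsChernForm L H) :
    IsChernForm (dual L) (fun v w => - H v w) := by
  obtain ⟨hH, F, hF, hFe⟩ := hc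
  refine ⟨⟨fun u v w => ?_, fun a v w => ?_, fun v w => ?_⟩, fun v => - F v,
    hF.neg, fun γ v => ?_⟩
  · rw [hH.add_left, neg_add]
  · rw [hH.smul_left]
    ring
  · rw [map_neg, ← hH.symm]
  · have h1 : ‖(dual L).e γ v‖ ^ 2 = (‖L.e γ v‖ ^ 2)⁻¹ := by
      change ‖(L.e γ v)⁻¹‖ ^ 2 = _
      rw [norm_inv, inv_pow]
    rw [h1, hFe, ← Real.exp_neg]
    congr 1
    simp only [Complex.neg_re]
    ring

theorem chern_mul (hc : IsChernForm L H) (hd : IsChernForm M G) :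
    IsChernForm (tensor L M) (fun v w => H v w + G v w) := by
  obtain ⟨hH, F, hF, hFe⟩ := hc
  obtain ⟨hG, F', hF', hFe'⟩ := hd
  refine ⟨⟨fun u v w => ?_, fun a v w => ?_, fun v w => ?_⟩, fun v => F v + F' v,
    hF.add hF', fun γ v => ?_⟩
  · rw [hH.add_left, hG.add_left]
    ring
  · rw [hH.smul_left, hG.smul_left]
    ring
  · rw [map_add, ← hH.symm, ← hG.symm]
  · have h1 : ‖(tensor L M).e γ v‖ ^ 2 = ‖L.e γ v‖ ^ 2 * ‖M.e γ v‖ ^ 2 := by
      change ‖L.e γ v * M.e γ v‖ ^ 2 = _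
      rw [norm_mul, mul_pow]
    rw [h1, hFe, hFe', ← Real.exp_add]
    congr 1
    simp only [Complex.add_re]
    ring

theorem BaseFree.pow (h : BaseFree M) (k : ℕ) : BaseFree (M.pow k) := by
  intro v
  obtain ⟨s, hs, hv⟩ := h v
  refine ⟨fun w => s w ^ k, ⟨hs.holo.pow k, fun γ w => ?_⟩, pow_ne_zero k hv⟩
  change s _ ^ k = M.e γ w ^ k * s w ^ k
  rw [hs.eq, mul_pow]

variable [FiniteDimensional ℂ V]

/-- If `H^1(O) = 0` then a line bundle with zero Chern form is torsion. -/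
theorem torsion (hΓ : IsTorusQuotient Γ) (h01 : HOneZero Γ)
    (hc : IsChernForm M (fun _ _ => 0)) : ∃ k : ℕ, 1 ≤ k ∧ (M.pow k).IsTrivial := by
  obtain ⟨n, Δ, π, hker, hfib, k, hk, A, HA, -, -, h, hh, hne, heq⟩ :=
    semiample hΓ h01 hc (fun _ => by simp)
  have hπ : ∀ v, π v = 0 := fun v => (hker v).2 fun _ => rfl
  refine ⟨k, hk, fun v => (h v)⁻¹, ⟨hh.inv hne, fun γ v => ?_⟩, fun v => inv_ne_zero (hne v)⟩
  obtain ⟨δ, hδ, hδγ⟩ := hfib.maps γ γ.2
  have h1 := heq γ ⟨δ, hδ⟩ hδγ v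
  have h2 : A.e ⟨δ, hδ⟩ (π v) = 1 := by
    apply A.stab
    change δ (π v) = π v
    rw [hδγ, hπ, hπ]
  rw [h2, one_mul] at h1
  rw [← h1, mul_inv, mul_left_comm, mul_inv_cancel₀ ((M.pow k).ne_zero _ _), mul_one]

theorem rat_of_chern {F : V → ℂ} (hH : IsHermitian H) (hF : IsPot L H F) :
    ∀ b ∈ latt Γ, ∀ c ∈ latt Γ, ∃ n : ℤ, ((1 : ℕ) : ℝ) * (H b c).im = n := by
  intro b hb c hc
  obtain ⟨n, hn⟩ := im_int hH hF hb hc
  exact ⟨n, by rw [hn]; simp⟩

/-- If `H^1(O) = 0`, then some power of a nef line bundle is generated by global sections. -/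
theorem exists_power (hΓ : IsTorusQuotient Γ) (h01 : HOneZero Γ) (hc : IsChernForm L H)
    (hn : IsNefForm H) : ∃ m : ℕ, 1 ≤ m ∧ BaseFree (L.pow m) := by
  have hc' := hc
  obtain ⟨hH, F, hF, hFe⟩ := hc'
  have hpot : IsPot L H F := ⟨hF, hFe⟩
  obtain ⟨m, hm, L', hL', hs⟩ := exists_bpf hΓ hH hn
    (fun γ hγ => h_inv hH hpot ⟨γ, hγ⟩) one_pos (rat_of_chern hH hpot)
  have hM := chern_mul (chern_pow hc m) (chern_dual hL')
  have hz : (fun v w => (m : ℂ) * H v w + -((m : ℂ) * H v w)) = fun _ _ : V => (0 : ℂ) := by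
    funext v w
    ring
  rw [hz] at hM
  obtain ⟨k, hk, u, ⟨hu, hueq⟩, hune⟩ := torsion hΓ h01 hM
  refine ⟨m * k, Nat.mul_pos hm hk, fun v => ?_⟩
  obtain ⟨s, ⟨hsh, hseq⟩, hsv⟩ := hs v
  refine ⟨fun w => u w * s w ^ k, ⟨hu.mul (hsh.pow k), fun γ w => ?_⟩,
    mul_ne_zero (hune v) (pow_ne_zero k hsv)⟩
  have h1 := hueq γ w
  have h2 := hseq γ w
  change u ((γ : V ≃ᵃ[ℂ] V) w) * s ((γ : V ≃ᵃ[ℂ] V) w) ^ k = L.e γ w ^ (m * k) * (u w * s w ^ k)
  rw [h1, h2]
  change (L.e γ w ^ m * (L'.e γ w)⁻¹) ^ k * u w * (L'.e γ w * s w) ^ k = _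
  have h3 : (L'.e γ w) ^ k ≠ 0 := pow_ne_zero k (L'.ne_zero γ w)
  rw [mul_pow, mul_pow, inv_pow, pow_mul]
  field_simp

/-- A line bundle with a nonzero section in some power is nef. -/
theorem nef_of_section (hΓ : IsTorusQuotient Γ) (hc : IsChernForm L H) {m : ℕ} (hm : 1 ≤ m)
    {s : V → ℂ} (hs : (L.pow m).IsSection s) (h0 : s ≠ 0) : IsNefForm H := by
  have h1 := nef_of_psef hΓ (chern_pow hc m) (psef_of_section hs h0)
  intro v
  have h3 := h1 v
  have : ((m : ℕ) : ℂ) = ((m : ℝ) : ℂ) := by push_cast; rfl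
  have hkpos : (0 : ℝ) < m := by exact_mod_cast hm
  rw [this, Complex.re_ofReal_mul] at h3
  exact nonneg_of_mul_nonneg_right h3 hkpos

/-- If `H^1(O) ≠ 0` there is a flat line bundle no power of which has a section. -/
theorem exists_bad (hΓ : IsTorusQuotient Γ) (h01 : ¬ HOneZero Γ) :
    ∃ P : LineBundle Γ, IsChernForm P (fun _ _ => 0) ∧
      ∀ m : ℕ, 1 ≤ m → ∀ s, (P.pow m).IsSection s → s = 0 := by
  obtain ⟨P, hP, hbad⟩ := exists_flat hΓ h01
  have hc := chern_of_flat hP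
  refine ⟨P, hc, fun m hm s hs => ?_⟩
  have : ProperSpace V := FiniteDimensional.proper ℂ V
  by_contra hne
  -- `s` is constant
  obtain ⟨C, hC⟩ := cobounded (latt Γ) hΓ.span_top
  have hb : Bornology.IsBounded (Set.range s) := by
    have hK : IsCompact (Metric.closedBall (0 : V) C) := isCompact_closedBall _ _
    obtain ⟨B, hB⟩ := (isBounded_iff_forall_norm_le).1 (hK.image hs.holo.continuous).isBounded
    rw [isBounded_iff_forall_norm_le]
    refine ⟨B, ?_⟩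
    rintro _ ⟨v, rfl⟩
    obtain ⟨b, hb, hbC⟩ := hC v
    have h1 := congrArg norm (hs.eq (tr b hb) v)
    rw [tr_apply, norm_mul] at h1
    have h2 : ‖(P.pow m).e (tr b hb) v‖ = 1 := by
      change ‖P.e (tr b hb) v ^ m‖ = 1
      rw [norm_pow, hP.2, one_pow]
    rw [h2, one_mul] at h1
    rw [← h1]
    exact hB _ ⟨b + v, by rwa [mem_closedBall_zero_iff], rfl⟩
  have hconst : ∀ v w, s v = s w := fun v w => hs.holo.apply_eq_apply_of_bounded hb v w
  obtain ⟨v₀, hv₀⟩ := Function.ne_iff.1 hne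
  have hroot : ∀ b ∈ latt Γ, b ∈ ker hc.1 → chi P (fun _ => 0) b ^ m = 1 := by
    intro b hb _
    rw [chi_eq hb, tw, sub_self, Complex.exp_zero, mul_one]
    have h1 := hs.eq (tr b hb) 0
    rw [hconst _ v₀, hconst 0 v₀] at h1
    have h2 : (P.pow m).e (tr b hb) 0 = 1 := mul_right_cancel₀ hv₀ (h1.symm.trans (one_mul _).symm)
    exact h2
  have hpot : IsPot P (fun _ _ => 0) (fun _ => (0 : ℂ)) := by
    refine ⟨differentiable_const _, fun γ v => ?_⟩
    rw [hP.2]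
    simp
  obtain ⟨n, Δ, π, -, h2, h3⟩ := exists_sit hΓ hc.1 hpot (fun _ => by simp) hm hroot
  exact hbad n Δ π h2 h3

end Pool.Agent.R893.TQ
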